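import Mathlib

/-!
# Blum measures: definitions
-/

set_option autoImplicit false

namespace Pool.Agent.Q216.CB

/-- `φ` is an acceptable Gödel numbering of the unary partial recursive functions. -/
structure Acceptable (φ : ℕ → ℕ →. ℕ) : Prop where
  partrec : Partrec₂ φ
  smn : ∀ ψ : ℕ → ℕ →. ℕ, Partrec₂ ψ → ∃ h : ℕ → ℕ, Computable h ∧ ∀ i, φ (h i) = ψ i

/-- `(φ, Φ)` is a Blum measure. -/
structure IsBlum (φ Φ : ℕ → ℕ →. ℕ) : Prop where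
  acceptable : Acceptable φ
  partrec : ∀ i, Partrec (Φ i)
  dom : ∀ i x, (Φ i x).Dom ↔ (φ i x).Dom
  decidable : ComputablePred fun p : ℕ × ℕ × ℕ => p.2.2 ∈ Φ p.1 p.2.1

/-- The complexity class of `t`: the total functions `f = φ i` such that `Φ i x ≤ t x` for almost
all `x`. -/
def Cls (φ Φ : ℕ → ℕ →. ℕ) (t : ℕ → ℕ) : Set (ℕ → ℕ) :=
  {f | ∃ i, (∀ x, f x ∈ φ i x) ∧ ∀ᶠ x in Filter.atTop, ∃ y ∈ Φ i x, y ≤ t x}

/-- The index set of the complexity class of `t`. -/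
def Ix (φ Φ : ℕ → ℕ →. ℕ) (t : ℕ → ℕ) (i : ℕ) : Prop :=
  ∃ f ∈ Cls φ Φ t, ∀ x, f x ∈ φ i x

/-- The class `C` of total functions is recursively enumerable: empty or of the form
`{φ (g n) : n}` for some total recursive `g`. -/
def IsRE (φ : ℕ → ℕ →. ℕ) (C : Set (ℕ → ℕ)) : Prop :=
  C = ∅ ∨ ∃ g : ℕ → ℕ, Computable g ∧ (∀ n, ∃ f ∈ C, ∀ x, f x ∈ φ (g n) x) ∧
    ∀ f ∈ C, ∃ n, ∀ x, f x ∈ φ (g n) x

/-- The measure is conform: the index sets of any two nonempty complexity classes (of total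
recursive bounds) are one-one equivalent. -/
def Conform (φ Φ : ℕ → ℕ →. ℕ) : Prop :=
  ∀ t₁ t₂ : ℕ → ℕ, Computable t₁ → Computable t₂ → (Cls φ Φ t₁).Nonempty →
    (Cls φ Φ t₂).Nonempty → OneOneEquiv (Ix φ Φ t₁) (Ix φ Φ t₂)

end Pool.Agent.Q216.CB
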