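import Mathlib
import Pool.Agent.Q216.CB.Defs

/-!
# Blum measures from step functions
-/

set_option autoImplicit false

namespace Pool.Agent.Q216.CB

/-- A step function. -/
structure Step (ev : ℕ → ℕ → ℕ → Option ℕ) : Prop where
  comp : Computable fun p : ℕ × ℕ × ℕ => ev p.1 p.2.1 p.2.2
  mono : ∀ {i x s s' v : ℕ}, s ≤ s' → ev i x s = some v → ev i x s' = some v

/-- The numbering. -/
def phi (ev : ℕ → ℕ → ℕ → Option ℕ) (i : ℕ) : ℕ →. ℕ := fun x => Nat.rfindOpt (ev i x)

/-- The measure. -/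
def cost (ev : ℕ → ℕ → ℕ → Option ℕ) (i : ℕ) : ℕ →. ℕ :=
  fun x => Nat.rfind fun s => Part.some (ev i x s).isSome

/-- Predicates which are the conjunction of a `Π₂` and a `Σ₂` predicate. -/
def D2 (P : ℕ → Prop) : Prop :=
  ∃ R S : ℕ → ℕ → ℕ → Bool, Computable (fun p : ℕ × ℕ × ℕ => R p.1 p.2.1 p.2.2) ∧
    Computable (fun p : ℕ × ℕ × ℕ => S p.1 p.2.1 p.2.2) ∧
    ∀ e, P e ↔ (∀ x, ∃ s, R e x s = true) ∧ ∃ a, ∀ b, S e a b = true

namespace Step

variable {ev : ℕ → ℕ → ℕ → Option ℕ} (h : Step ev)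
include h

theorem comp' {α : Type*} [Primcodable α] {f g k : α → ℕ} (hf : Computable f) (hg : Computable g)
    (hk : Computable k) : Computable fun a => ev (f a) (g a) (k a) :=
  h.comp.comp (hf.pair (hg.pair hk))

theorem mem_phi {i x v : ℕ} : v ∈ phi ev i x ↔ ∃ s, ev i x s = some v := by
  unfold phi
  rw [Nat.rfindOpt_mono]
  · rfl
  · intro a m n hmn hm
    exact h.mono hmn hm

omit h in
theorem _root_.Pool.Agent.Q216.CB.mem_cost {i x y : ℕ} :
    y ∈ cost ev i x ↔ (ev i x y).isSome = true ∧ ∀ s, s < y → (ev i x s).isSome = false := by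
  unfold cost
  refine Nat.mem_rfind.trans ?_
  simp only [Part.mem_some_iff]
  constructor
  · rintro ⟨h1, h2⟩
    exact ⟨h1.symm, fun s hs => (h2 hs).symm⟩
  · rintro ⟨h1, h2⟩
    exact ⟨h1.symm, fun {s} hs => (h2 s hs).symm⟩

theorem mono' {i x s s' : ℕ} (hs : s ≤ s') (h1 : (ev i x s).isSome = true) :
    (ev i x s').isSome = true := by
  obtain ⟨v, hv⟩ := Option.isSome_iff_exists.mp h1
  rw [h.mono hs hv]
  rfl

theorem cost_le {i x s : ℕ} : (∃ y ∈ cost ev i x, y ≤ s) ↔ (ev i x s).isSome = true := by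
  constructor
  · rintro ⟨y, hy, hys⟩
    exact h.mono' hys (mem_cost.mp hy).1
  · intro h1
    classical
    have h2 : ∃ y, (ev i x y).isSome = true := ⟨s, h1⟩
    refine ⟨Nat.find h2, mem_cost.mpr ⟨Nat.find_spec h2, fun s' hs' => ?_⟩, Nat.find_min' h2 h1⟩
    have := Nat.find_min h2 hs'
    simpa using this

theorem cost_dom {i x : ℕ} : (cost ev i x).Dom ↔ ∃ s, (ev i x s).isSome = true := by
  constructor
  · intro h1
    exact ⟨_, (mem_cost.mp (Part.get_mem h1)).1⟩
  · rintro ⟨s, hs⟩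
    obtain ⟨y, hy, _⟩ := h.cost_le.mpr hs
    exact Part.dom_iff_mem.mpr ⟨y, hy⟩

theorem phi_dom {i x : ℕ} : (phi ev i x).Dom ↔ ∃ s, (ev i x s).isSome = true := by
  rw [Part.dom_iff_mem]
  constructor
  · rintro ⟨v, hv⟩
    obtain ⟨s, hs⟩ := h.mem_phi.mp hv
    exact ⟨s, by rw [hs]; rfl⟩
  · rintro ⟨s, hs⟩
    obtain ⟨v, hv⟩ := Option.isSome_iff_exists.mp hs
    exact ⟨v, h.mem_phi.mpr ⟨s, hv⟩⟩

theorem isSome_comp {α : Type*} [Primcodable α] {f g k : α → ℕ} (hf : Computable f)
    (hg : Computable g) (hk : Computable k) :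
    Computable fun a => (ev (f a) (g a) (k a)).isSome :=
  Primrec.option_isSome.to_comp.comp (h.comp' hf hg hk)

theorem partrec_phi : Partrec₂ (phi ev) := by
  have h1 : Computable₂ fun (p : ℕ × ℕ) (s : ℕ) => ev p.1 p.2 s :=
    h.comp' (Computable.fst.comp Computable.fst) (Computable.snd.comp Computable.fst)
      Computable.snd
  exact Partrec.rfindOpt h1

theorem partrec_cost : Partrec₂ (cost ev) := by
  have h1 : Computable₂ fun (p : ℕ × ℕ) (s : ℕ) => (ev p.1 p.2 s).isSome :=
    h.isSome_comp (Computable.fst.comp Computable.fst) (Computable.snd.comp Computable.fst)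
      Computable.snd
  exact Partrec.rfind h1.partrec₂

theorem mem_cost' {i x y : ℕ} : y ∈ cost ev i x ↔
    ((ev i x y).isSome && (decide (y = 0) || !(ev i x (y - 1)).isSome)) = true := by
  rw [mem_cost, Bool.and_eq_true, Bool.or_eq_true, decide_eq_true_eq, Bool.not_eq_true']
  refine and_congr_right fun _ => ⟨fun h2 => ?_, fun h2 s hs => ?_⟩
  · rcases Nat.eq_zero_or_pos y with h3 | h3
    · exact Or.inl h3
    · exact Or.inr (h2 _ (Nat.sub_lt h3 one_pos))
  · rcases h2 with h3 | h3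
    · omega
    · by_contra h4
      rw [Bool.not_eq_false] at h4
      rw [h.mono' (show s ≤ y - 1 by omega) h4] at h3
      exact absurd h3 (by simp)

theorem isBlum (hacc : Acceptable (phi ev)) : IsBlum (phi ev) (cost ev) where
  acceptable := hacc
  partrec i := h.partrec_cost.comp (Computable.const i) Computable.id
  dom i x := by rw [h.cost_dom, h.phi_dom]
  decidable := by
    rw [ComputablePred.computable_iff]
    refine ⟨fun p => (ev p.1 p.2.1 p.2.2).isSome &&
      (decide (p.2.2 = 0) || !(ev p.1 p.2.1 (p.2.2 - 1)).isSome), ?_, ?_⟩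
    · have e1 : Computable fun p : ℕ × ℕ × ℕ => p.1 := Computable.fst
      have e2 : Computable fun p : ℕ × ℕ × ℕ => p.2.1 := Computable.fst.comp Computable.snd
      have e3 : Computable fun p : ℕ × ℕ × ℕ => p.2.2 := Computable.snd.comp Computable.snd
      have e4 : Computable fun p : ℕ × ℕ × ℕ => decide (p.2.2 = 0) :=
        Primrec.eq.decide.to_comp.comp e3 (Computable.const 0)
      have e5 := h.isSome_comp e1 e2 e3
      have e6 := h.isSome_comp e1 e2 (Primrec.pred.to_comp.comp e3)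
      exact Primrec.and.to_comp.comp e5 (Primrec.or.to_comp.comp e4 (Primrec.not.to_comp.comp e6))
    · funext p
      rw [eq_iff_iff]
      exact h.mem_cost'

/-! ### Classes -/

theorem mem_cls {t f : ℕ → ℕ} : f ∈ Cls (phi ev) (cost ev) t ↔
    ∃ i, (∀ x, ∃ s, ev i x s = some (f x)) ∧
      ∀ᶠ x in Filter.atTop, (ev i x (t x)).isSome = true := by
  unfold Cls
  rw [Set.mem_ofPred_eq]
  simp only [h.mem_phi, h.cost_le]

theorem ix_iff {t : ℕ → ℕ} {i : ℕ} : Ix (phi ev) (cost ev) t i ↔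
    (∀ x, ∃ s, (ev i x s).isSome = true) ∧ ∃ a : ℕ × ℕ × ℕ, ∀ b : ℕ × ℕ,
      (ev a.1 b.1 (if b.1 < a.2.1 then a.2.2 else t b.1)).isSome = true ∧
      (ev i b.1 b.2 = none ∨
        ev i b.1 b.2 = ev a.1 b.1 (if b.1 < a.2.1 then a.2.2 else t b.1)) := by
  unfold Ix
  simp only [h.mem_cls, h.mem_phi]
  constructor
  · rintro ⟨f, ⟨j, hj, hj'⟩, hi⟩
    refine ⟨fun x => ?_, ?_⟩
    · obtain ⟨s, hs⟩ := hi x
      exact ⟨s, by rw [hs]; rfl⟩
    · rw [Filter.eventually_atTop] at hj'
      obtain ⟨k, hk⟩ := hj'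
      choose s hs using hj
      have h1 : ∀ x, (ev j x (if x < k then (Finset.range k).sup s else t x)) = some (f x) := by
        intro x
        split_ifs with hx
        · exact h.mono (Finset.le_sup (Finset.mem_range.mpr hx)) (hs x)
        · obtain ⟨v, hv⟩ := Option.isSome_iff_exists.mp (hk x (not_lt.mp hx))
          rw [hv]
          have h2 := h.mono (le_max_left (s x) (t x)) (hs x)
          have h3 := h.mono (le_max_right (s x) (t x)) hv
          rw [h2] at h3
          rw [Option.some.inj h3]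
      refine ⟨(j, k, (Finset.range k).sup s), fun b => ⟨?_, ?_⟩⟩
      · simp only
        rw [h1]
        rfl
      · simp only
        rw [h1]
        rcases h2 : ev i b.1 b.2 with _ | v
        · exact Or.inl rfl
        · right
          obtain ⟨s', hs'⟩ := hi b.1
          have h3 := h.mono (le_max_left b.2 s') h2
          have h4 := h.mono (le_max_right b.2 s') hs'
          rw [h3] at h4
          exact h4
  · rintro ⟨h1, ⟨j, k, v⟩, h2⟩
    simp only [Prod.forall] at h2
    choose s hs using h1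
    choose w hw using fun x => Option.isSome_iff_exists.mp (hs x)
    refine ⟨w, ⟨j, fun x => ?_, ?_⟩, fun x => ⟨s x, hw x⟩⟩
    · obtain ⟨h3, h4 | h4⟩ := h2 x (s x)
      · rw [hw x] at h4
        exact absurd h4 (Option.some_ne_none _)
      · rw [hw x] at h4
        exact ⟨_, h4.symm⟩
    · filter_upwards [Filter.eventually_ge_atTop k] with x hx
      have h3 := (h2 x 0).1
      rwa [if_neg (not_lt.mpr hx)] at h3

theorem ix_D2 {t : ℕ → ℕ} (ht : Computable t) : D2 (Ix (phi ev) (cost ev) t) := by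
  set dec3 : ℕ → ℕ × ℕ × ℕ := fun a => Denumerable.ofNat (ℕ × ℕ × ℕ) a with hdec3
  set dec2 : ℕ → ℕ × ℕ := fun a => Denumerable.ofNat (ℕ × ℕ) a with hdec2
  set bd : ℕ × ℕ × ℕ → ℕ → ℕ := fun a x => if x < a.2.1 then a.2.2 else t x with hbd
  refine ⟨fun i x s => (ev i x s).isSome, fun i a b =>
    (ev (dec3 a).1 (dec2 b).1 (bd (dec3 a) (dec2 b).1)).isSome &&
    (decide (ev i (dec2 b).1 (dec2 b).2 = none) || decide (ev i (dec2 b).1 (dec2 b).2 =
      ev (dec3 a).1 (dec2 b).1 (bd (dec3 a) (dec2 b).1))), ?_, ?_, ?_⟩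
  · exact h.isSome_comp Computable.fst (Computable.fst.comp Computable.snd)
      (Computable.snd.comp Computable.snd)
  · have e0 : Computable fun p : ℕ × ℕ × ℕ => p.1 := Computable.fst
    have e1 : Computable fun p : ℕ × ℕ × ℕ => dec3 p.2.1 :=
      (Computable.ofNat (ℕ × ℕ × ℕ)).comp (Computable.fst.comp Computable.snd)
    have e2 : Computable fun p : ℕ × ℕ × ℕ => dec2 p.2.2 :=
      (Computable.ofNat (ℕ × ℕ)).comp (Computable.snd.comp Computable.snd)
    have e2x : Computable fun p : ℕ × ℕ × ℕ => (dec2 p.2.2).1 := Computable.fst.comp e2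
    have e2s : Computable fun p : ℕ × ℕ × ℕ => (dec2 p.2.2).2 := Computable.snd.comp e2
    have e1j : Computable fun p : ℕ × ℕ × ℕ => (dec3 p.2.1).1 := Computable.fst.comp e1
    have e3 : Computable fun p : ℕ × ℕ × ℕ => bd (dec3 p.2.1) (dec2 p.2.2).1 := by
      have e4 : Computable fun p : ℕ × ℕ × ℕ => decide ((dec2 p.2.2).1 < (dec3 p.2.1).2.1) :=
        Primrec.nat_lt.decide.to_comp.comp e2x (Computable.fst.comp (Computable.snd.comp e1))
      refine (Computable.cond e4 (Computable.snd.comp (Computable.snd.comp e1))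
        (ht.comp e2x)).of_eq fun p => ?_
      simp only [hbd, Bool.cond_decide]
    have e5 := h.comp' e1j e2x e3
    have e6 := h.comp' e0 e2x e2s
    have e7 : Computable fun p : ℕ × ℕ × ℕ => decide (ev p.1 (dec2 p.2.2).1 (dec2 p.2.2).2 =
        none) :=
      Primrec.eq.decide.to_comp.comp e6 (Computable.const none)
    have e8 : Computable fun p : ℕ × ℕ × ℕ => decide (ev p.1 (dec2 p.2.2).1 (dec2 p.2.2).2 =
        ev (dec3 p.2.1).1 (dec2 p.2.2).1 (bd (dec3 p.2.1) (dec2 p.2.2).1)) :=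
      Primrec.eq.decide.to_comp.comp e6 e5
    exact Primrec.and.to_comp.comp (Primrec.option_isSome.to_comp.comp e5)
      (Primrec.or.to_comp.comp e7 e8)
  · intro i
    rw [h.ix_iff]
    refine and_congr_right fun _ => ⟨?_, ?_⟩
    · rintro ⟨a, ha⟩
      refine ⟨Encodable.encode a, fun b => ?_⟩
      have e : dec3 (Encodable.encode a) = a := Denumerable.ofNat_encode a
      simp only [e, Bool.and_eq_true, Bool.or_eq_true, decide_eq_true_eq]
      exact ha (dec2 b)
    · rintro ⟨a, ha⟩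
      refine ⟨dec3 a, fun b => ?_⟩
      have e : dec2 (Encodable.encode b) = b := Denumerable.ofNat_encode b
      have h1 := ha (Encodable.encode b)
      simp only [e, Bool.and_eq_true, Bool.or_eq_true, decide_eq_true_eq] at h1
      exact h1

end Step

end Pool.Agent.Q216.CB
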