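import Mathlib
import Pool.Agent.Q216.CB.Step

/-!
# The measure
-/

set_option autoImplicit false

namespace Pool.Agent.Q216.CB

open Nat.Partrec (Code)
open Nat.Partrec.Code (evaln eval curry)

/-! ### Counters -/

/-- The current candidate `a` and the current test `b`. -/
def cn (S : ℕ → ℕ → ℕ → Bool) (e : ℕ) : ℕ → ℕ × ℕ
  | 0 => (0, 0)
  | z + 1 => bif S e (cn S e z).1 (cn S e z).2 then ((cn S e z).1, (cn S e z).2 + 1)
      else ((cn S e z).1 + 1, 0)

theorem cn_succ (S : ℕ → ℕ → ℕ → Bool) (e z : ℕ) : cn S e (z + 1) =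
    bif S e (cn S e z).1 (cn S e z).2 then ((cn S e z).1, (cn S e z).2 + 1)
      else ((cn S e z).1 + 1, 0) := by rw [cn]

theorem cn_comp {S : ℕ → ℕ → ℕ → Bool}
    (hS : Computable (fun p : ℕ × ℕ × ℕ => S p.1 p.2.1 p.2.2)) :
    Computable₂ (cn S) := by
  have e1 : Computable fun p : (ℕ × ℕ) × (ℕ × (ℕ × ℕ)) => p.1.1 :=
    Computable.fst.comp Computable.fst
  have e2 : Computable fun p : (ℕ × ℕ) × (ℕ × (ℕ × ℕ)) => p.2.2.1 :=
    Computable.fst.comp (Computable.snd.comp Computable.snd)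
  have e3 : Computable fun p : (ℕ × ℕ) × (ℕ × (ℕ × ℕ)) => p.2.2.2 :=
    Computable.snd.comp (Computable.snd.comp Computable.snd)
  have e7 : Computable fun p : (ℕ × ℕ) × (ℕ × (ℕ × ℕ)) => (p.1.1, p.2.2.1, p.2.2.2) :=
    e1.pair (e2.pair e3)
  have e4 := hS.comp e7
  have e5 : Computable fun p : (ℕ × ℕ) × (ℕ × (ℕ × ℕ)) => (p.2.2.1, p.2.2.2 + 1) :=
    e2.pair (Computable.succ.comp e3)
  have e6 : Computable fun p : (ℕ × ℕ) × (ℕ × (ℕ × ℕ)) => (p.2.2.1 + 1, 0) :=
    (Computable.succ.comp e2).pair (Computable.const 0)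
  have h1 : Computable fun p : (ℕ × ℕ) × (ℕ × (ℕ × ℕ)) =>
      (bif S p.1.1 p.2.2.1 p.2.2.2 then (p.2.2.1, p.2.2.2 + 1) else (p.2.2.1 + 1, 0) : ℕ × ℕ) :=
    Computable.cond e4 e5 e6
  have h2 : Computable₂ fun (p : ℕ × ℕ) (w : ℕ × (ℕ × ℕ)) =>
      (bif S p.1 w.2.1 w.2.2 then (w.2.1, w.2.2 + 1) else (w.2.1 + 1, 0) : ℕ × ℕ) := h1
  have h3 : Computable fun p : ℕ × ℕ => p.2 := Computable.snd
  have h4 : Computable fun _ : ℕ × ℕ => ((0, 0) : ℕ × ℕ) := Computable.const _
  have h5 : Computable fun p : ℕ × ℕ => cn S p.1 p.2 := by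
    refine (Computable.nat_rec h3 h4 h2).of_eq fun p => ?_
    obtain ⟨e, z⟩ := p
    induction z with
    | zero => rfl
    | succ z ih =>
      simp only at ih ⊢
      rw [cn_succ, ← ih]
  exact h5

theorem cn_le {S : ℕ → ℕ → ℕ → Bool} {e a : ℕ} (h : ∀ b, S e a b = true) (z : ℕ) :
    (cn S e z).1 ≤ a := by
  induction z with
  | zero => exact Nat.zero_le _
  | succ z ih =>
    rw [cn_succ]
    rcases Nat.lt_or_ge (cn S e z).1 a with h1 | h1
    · cases S e (cn S e z).1 (cn S e z).2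
      · exact h1
      · exact h1.le
    · have h2 : (cn S e z).1 = a := le_antisymm ih h1
      rw [h2, h]
      exact le_rfl

theorem cn_mono (S : ℕ → ℕ → ℕ → Bool) (e z : ℕ) : (cn S e z).1 ≤ (cn S e (z + 1)).1 := by
  rw [cn_succ]
  cases S e (cn S e z).1 (cn S e z).2
  · exact Nat.le_succ _
  · exact le_rfl

theorem cn_mono' (S : ℕ → ℕ → ℕ → Bool) (e : ℕ) : Monotone fun z => (cn S e z).1 :=
  monotone_nat_of_le_succ (cn_mono S e)

theorem cn_le_self (S : ℕ → ℕ → ℕ → Bool) (e z : ℕ) : (cn S e z).1 ≤ z := by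
  induction z with
  | zero => exact le_rfl
  | succ z ih =>
    rw [cn_succ]
    cases S e (cn S e z).1 (cn S e z).2
    · exact Nat.succ_le_succ ih
    · exact ih.trans (Nat.le_succ _)

theorem cn_reach {S : ℕ → ℕ → ℕ → Bool} {e : ℕ} (h : ∀ a, ∃ b, S e a b = false) (k : ℕ) :
    ∃ z, (cn S e z).1 = k ∧ (cn S e (z + 1)).1 = k + 1 := by
  have main : ∀ k, (∃ z, cn S e z = (k, 0)) →
      ∃ z, (cn S e z).1 = k ∧ cn S e (z + 1) = (k + 1, 0) := by
    classical
    rintro k ⟨z, hz⟩
    obtain ⟨b, hb, hb'⟩ : ∃ b, S e k b = false ∧ ∀ b' < b, S e k b' = true :=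
      ⟨Nat.find (h k), Nat.find_spec (h k), fun b' h1 => by
        have := Nat.find_min (h k) h1
        simpa using this⟩
    have h1 : ∀ j, j ≤ b → cn S e (z + j) = (k, j) := by
      intro j
      induction j with
      | zero => exact fun _ => hz
      | succ j ih =>
        intro hj
        have h2 := ih (by omega)
        rw [← add_assoc, cn_succ, h2]
        simp only
        rw [hb' j (by omega)]
        rfl
    refine ⟨z + b, by rw [h1 b le_rfl], ?_⟩
    rw [cn_succ, h1 b le_rfl]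
    simp only
    rw [hb]
    rfl
  have h2 : ∀ k, ∃ z, cn S e z = (k, 0) := by
    intro k
    induction k with
    | zero => exact ⟨0, rfl⟩
    | succ k ih =>
      obtain ⟨z, _, hz⟩ := main k ih
      exact ⟨z + 1, hz⟩
  obtain ⟨z, h3, h4⟩ := main k (h2 k)
  exact ⟨z, h3, by rw [h4]⟩

/-! ### The step function -/

/-- The `n`-th code. -/
def cd (n : ℕ) : Code := Denumerable.ofNat Code n

/-- The events. -/
def E (n x : ℕ) : Prop :=
  ∃ k < x, (evaln x (cd n) (2 * k)).isSome = true ∧ (evaln x (cd n) (2 * k + 1)).isSome = false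

instance (n x : ℕ) : Decidable (E n x) := inferInstanceAs (Decidable (∃ k < x, _))

/-- The functions with finite support. -/
def fs (m x : ℕ) : ℕ := (Denumerable.ofNat (List ℕ) m).getD x 0

/-- The step function. -/
def ev (i x s : ℕ) : Option ℕ :=
  if i % 3 = 0 then (if E (i / 3) x ∧ s = 0 then none else some (i / 3))
  else if i % 3 = 1 then (if s = 0 then none else some (fs (i / 3) x))
  else evaln (s - 1) (cd (i / 3)) x

theorem prim_evaln {α : Type*} [Primcodable α] {f g k : α → ℕ} (hf : Primrec f) (hg : Primrec g)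
    (hk : Primrec k) : Primrec fun a => evaln (f a) (cd (g a)) (k a) :=
  Nat.Partrec.Code.primrec_evaln.comp ((hf.pair ((Primrec.ofNat Code).comp hg)).pair hk)

theorem prim_E : PrimrecPred fun p : ℕ × ℕ => E p.1 p.2 := by
  have h1 : PrimrecRel fun (k : ℕ) (p : ℕ) =>
      (evaln p.unpair.2 (cd p.unpair.1) (2 * k)).isSome = true ∧
        (evaln p.unpair.2 (cd p.unpair.1) (2 * k + 1)).isSome = false := by
    have e1 : Primrec fun q : ℕ × ℕ => q.2.unpair.2 :=
      Primrec.snd.comp (Primrec.unpair.comp Primrec.snd)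
    have e2 : Primrec fun q : ℕ × ℕ => q.2.unpair.1 :=
      Primrec.fst.comp (Primrec.unpair.comp Primrec.snd)
    have e3 : Primrec fun q : ℕ × ℕ => 2 * q.1 :=
      Primrec.nat_mul.comp (Primrec.const 2) Primrec.fst
    have e4 := Primrec.succ.comp e3
    have e5 := Primrec.option_isSome.comp (prim_evaln e1 e2 e3)
    have e6 := Primrec.option_isSome.comp (prim_evaln e1 e2 e4)
    exact PrimrecPred.and (Primrec.eq.comp e5 (Primrec.const true))
      (Primrec.eq.comp e6 (Primrec.const false))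
  have h2 : Primrec fun p : ℕ × ℕ => p.2 := Primrec.snd
  have h3 : Primrec fun p : ℕ × ℕ => Nat.pair p.1 p.2 := Primrec₂.natPair
  refine ((h1.exists_lt).comp h2 h3).of_eq fun p => ?_
  simp only [Nat.unpair_pair]
  rfl

theorem prim_ev : Primrec fun p : ℕ × ℕ × ℕ => ev p.1 p.2.1 p.2.2 := by
  have e1 : Primrec fun p : ℕ × ℕ × ℕ => p.1 := Primrec.fst
  have e2 : Primrec fun p : ℕ × ℕ × ℕ => p.2.1 := Primrec.fst.comp Primrec.snd
  have e3 : Primrec fun p : ℕ × ℕ × ℕ => p.2.2 := Primrec.snd.comp Primrec.snd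
  have em : Primrec fun p : ℕ × ℕ × ℕ => p.1 % 3 := Primrec.nat_mod.comp e1 (Primrec.const 3)
  have ed : Primrec fun p : ℕ × ℕ × ℕ => p.1 / 3 := Primrec.nat_div.comp e1 (Primrec.const 3)
  have ez : PrimrecPred fun p : ℕ × ℕ × ℕ => p.2.2 = 0 := Primrec.eq.comp e3 (Primrec.const 0)
  have eE : PrimrecPred fun p : ℕ × ℕ × ℕ => E (p.1 / 3) p.2.1 := prim_E.comp (ed.pair e2)
  have efs : Primrec fun p : ℕ × ℕ × ℕ => fs (p.1 / 3) p.2.1 :=
    Primrec.list_getD 0 |>.comp ((Primrec.ofNat (List ℕ)).comp ed) e2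
  refine Primrec.ite (Primrec.eq.comp em (Primrec.const 0)) ?_ ?_
  · exact Primrec.ite (eE.and ez) (Primrec.const none) (Primrec.option_some.comp ed)
  · refine Primrec.ite (Primrec.eq.comp em (Primrec.const 1)) ?_ ?_
    · exact Primrec.ite ez (Primrec.const none) (Primrec.option_some.comp efs)
    · exact prim_evaln (Primrec.pred.comp e3) ed e2

theorem step_ev : Step ev where
  comp := prim_ev.to_comp
  mono := by
    intro i x s s' v hs h
    unfold ev at h ⊢
    split_ifs at h with h1 h2 h3 h4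
    · rw [if_pos h1, if_neg (fun h5 => h2 ⟨h5.1, by omega⟩)]
      exact h
    · rw [if_neg h1, if_pos h3, if_neg (by omega)]
      exact h
    · rw [if_neg h1, if_neg h3]
      exact Nat.Partrec.Code.evaln_mono (Nat.sub_le_sub_right hs 1) h

theorem ev_zero {i x v : ℕ} (h : ev i x 0 = some v) : i = 3 * v ∧ ¬ E v x := by
  unfold ev at h
  split_ifs at h with h1 h2 h3 h4
  · have h4 := Option.some.inj h
    rw [h4] at h2
    exact ⟨by omega, fun h5 => h2 ⟨h5, rfl⟩⟩
  · exact absurd rfl h4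
  · simp [evaln] at h

theorem ev_const (n x s : ℕ) : ev (3 * n) x s = if E n x ∧ s = 0 then none else some n := by
  unfold ev
  rw [if_pos (by omega), Nat.mul_div_cancel_left _ (by norm_num)]

theorem ev_fs (m x s : ℕ) : ev (3 * m + 1) x s = if s = 0 then none else some (fs m x) := by
  unfold ev
  rw [if_neg (by omega), if_pos (by omega), show (3 * m + 1) / 3 = m by omega]

theorem phi_code (c : Code) : phi ev (3 * Encodable.encode c + 2) = eval c := by
  funext x
  apply Part.ext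
  intro v
  have h1 : ∀ s, ev (3 * Encodable.encode c + 2) x s = evaln (s - 1) c x := by
    intro s
    unfold ev
    rw [if_neg (by omega), if_neg (by omega),
      show (3 * Encodable.encode c + 2) / 3 = Encodable.encode c by omega]
    unfold cd
    rw [Denumerable.ofNat_encode]
  rw [step_ev.mem_phi, Nat.Partrec.Code.evaln_complete]
  constructor
  · rintro ⟨s, hs⟩
    rw [h1] at hs
    exact ⟨_, hs⟩
  · rintro ⟨k, hk⟩
    refine ⟨k + 1, ?_⟩
    rw [h1, Nat.add_sub_cancel]
    exact hk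

/-- Indices. -/
theorem exists_index {ψ : ℕ → ℕ →. ℕ} (hψ : Partrec₂ ψ) :
    ∃ h : ℕ → ℕ, Computable h ∧ Function.Injective h ∧ ∀ e, phi ev (h e) = ψ e := by
  obtain ⟨c, hc⟩ : ∃ c : Code, eval c = fun n => ψ n.unpair.1 n.unpair.2 := by
    apply Nat.Partrec.Code.exists_code.mp
    refine Partrec.nat_iff.mp ?_
    exact hψ.comp (Computable.fst.comp Computable.unpair) (Computable.snd.comp Computable.unpair)
  refine ⟨fun e => 3 * Encodable.encode (curry c e) + 2, ?_, ?_, ?_⟩
  · have h1 : Primrec fun e : ℕ => Encodable.encode (curry c e) :=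
      Primrec.encode.comp (Nat.Partrec.Code.primrec₂_curry.comp (Primrec.const c) Primrec.id)
    exact (Primrec.nat_add.comp (Primrec.nat_mul.comp (Primrec.const 3) h1)
      (Primrec.const 2)).to_comp
  · intro e e' h
    simp only at h
    have h1 : Encodable.encode (curry c e) = Encodable.encode (curry c e') := by omega
    exact (Nat.Partrec.Code.curry_inj (Encodable.encode_injective h1)).2
  · intro e
    rw [phi_code]
    funext x
    rw [Nat.Partrec.Code.eval_curry, hc]
    simp only [Nat.unpair_pair]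

theorem acceptable : Acceptable (phi ev) where
  partrec := step_ev.partrec_phi
  smn ψ hψ := by
    obtain ⟨h, h1, _, h2⟩ := exists_index hψ
    exact ⟨h, h1, h2⟩

theorem isBlum : IsBlum (phi ev) (cost ev) := step_ev.isBlum acceptable

end Pool.Agent.Q216.CB
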