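import Mathlib
import Pool.Agent.Q216.CB.Ev

/-!
# All index sets are complete
-/

set_option autoImplicit false

namespace Pool.Agent.Q216.CB

open Nat.Partrec (Code)
open Nat.Partrec.Code (evaln eval curry)

/-! ### The events of suitable codes -/

/-- The predicate for the code which controls its own events. -/
def Q (S : ℕ → ℕ → ℕ → Bool) (t : ℕ → ℕ) (c : Code) (n z : ℕ) : Bool :=
  bif decide (n.unpair.2 % 2 = 0) then decide (n.unpair.2 / 2 < (cn S n.unpair.1 z).1)
  else decide (t z = 0) && ((evaln z (curry c n.unpair.1) (n.unpair.2 - 1)).isSome &&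
    !(evaln z (curry c n.unpair.1) n.unpair.2).isSome)

theorem Q_comp {S : ℕ → ℕ → ℕ → Bool} {t : ℕ → ℕ}
    (hS : Computable (fun p : ℕ × ℕ × ℕ => S p.1 p.2.1 p.2.2)) (ht : Computable t) :
    Computable fun p : (Code × ℕ) × ℕ => Q S t p.1.1 p.1.2 p.2 := by
  have ec : Computable fun p : (Code × ℕ) × ℕ => p.1.1 := Computable.fst.comp Computable.fst
  have en : Computable fun p : (Code × ℕ) × ℕ => p.1.2 := Computable.snd.comp Computable.fst
  have ez : Computable fun p : (Code × ℕ) × ℕ => p.2 := Computable.snd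
  have eu : Computable fun p : (Code × ℕ) × ℕ => p.1.2.unpair := Computable.unpair.comp en
  have ee : Computable fun p : (Code × ℕ) × ℕ => p.1.2.unpair.1 := Computable.fst.comp eu
  have em : Computable fun p : (Code × ℕ) × ℕ => p.1.2.unpair.2 := Computable.snd.comp eu
  have e1 : Computable fun p : (Code × ℕ) × ℕ => p.1.2.unpair.2 % 2 :=
    Primrec.nat_mod.to_comp.comp em (Computable.const 2)
  have e2 : Computable fun p : (Code × ℕ) × ℕ => decide (p.1.2.unpair.2 % 2 = 0) :=
    Primrec.eq.decide.to_comp.comp e1 (Computable.const 0)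
  have e3 : Computable fun p : (Code × ℕ) × ℕ => p.1.2.unpair.2 / 2 :=
    Primrec.nat_div.to_comp.comp em (Computable.const 2)
  have e4 : Computable fun p : (Code × ℕ) × ℕ => cn S p.1.2.unpair.1 p.2 :=
    (cn_comp hS).comp ee ez
  have e5 : Computable fun p : (Code × ℕ) × ℕ => (cn S p.1.2.unpair.1 p.2).1 :=
    Computable.fst.comp e4
  have e6 : Computable fun p : (Code × ℕ) × ℕ =>
      decide (p.1.2.unpair.2 / 2 < (cn S p.1.2.unpair.1 p.2).1) :=
    Primrec.nat_lt.decide.to_comp.comp e3 e5
  have e7 : Computable fun p : (Code × ℕ) × ℕ => t p.2 := ht.comp ez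
  have e8 : Computable fun p : (Code × ℕ) × ℕ => decide (t p.2 = 0) :=
    Primrec.eq.decide.to_comp.comp e7 (Computable.const 0)
  have e9 : Computable fun p : (Code × ℕ) × ℕ => curry p.1.1 p.1.2.unpair.1 :=
    Nat.Partrec.Code.primrec₂_curry.to_comp.comp ec ee
  have e10 : Computable fun p : (Code × ℕ) × ℕ => p.1.2.unpair.2 - 1 :=
    Primrec.pred.to_comp.comp em
  have e11 : Computable fun p : (Code × ℕ) × ℕ =>
      ((p.2, curry p.1.1 p.1.2.unpair.1), p.1.2.unpair.2 - 1) := (ez.pair e9).pair e10
  have e12 : Computable fun p : (Code × ℕ) × ℕ =>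
      ((p.2, curry p.1.1 p.1.2.unpair.1), p.1.2.unpair.2) := (ez.pair e9).pair em
  have e13 := Nat.Partrec.Code.primrec_evaln.to_comp.comp e11
  have e14 := Nat.Partrec.Code.primrec_evaln.to_comp.comp e12
  have e15 := Primrec.option_isSome.to_comp.comp e13
  have e16 := Primrec.not.to_comp.comp (Primrec.option_isSome.to_comp.comp e14)
  have e17 := Primrec.and.to_comp.comp e15 e16
  have e18 := Primrec.and.to_comp.comp e8 e17
  have e19 := Computable.cond e2 e6 e18
  exact e19

/-- The key reduction. -/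
theorem reduct {S : ℕ → ℕ → ℕ → Bool} {t : ℕ → ℕ}
    (hS : Computable (fun p : ℕ × ℕ × ℕ => S p.1 p.2.1 p.2.2)) (ht : Computable t)
    (hz : ∃ᶠ x in Filter.atTop, t x = 0) : ∃ h : ℕ → ℕ, Computable h ∧
      ∀ e, (∀ᶠ x in Filter.atTop, ¬ (E (h e) x ∧ t x = 0)) ↔ ∃ a, ∀ b, S e a b = true := by
  obtain ⟨c, hc⟩ : ∃ c : Code, eval c = fun n => Nat.rfind fun z => Part.some (Q S t c n z) := by
    apply Nat.Partrec.Code.fixed_point₂ (f := fun c n => Nat.rfind fun z => Part.some (Q S t c n z))
    have h1 : Computable₂ fun (p : Code × ℕ) (z : ℕ) => Q S t p.1 p.2 z := Q_comp hS ht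
    exact Partrec.rfind h1.partrec₂
  have hQ : ∀ e m v, v ∈ eval (curry c e) m → Q S t c (Nat.pair e m) v = true := by
    intro e m v hv
    rw [Nat.Partrec.Code.eval_curry, hc] at hv
    have h1 := (Nat.mem_rfind.mp hv).1
    rw [Part.mem_some_iff] at h1
    exact h1.symm
  have hQ' : ∀ e m v, Q S t c (Nat.pair e m) v = true → (eval (curry c e) m).Dom := by
    intro e m v hv
    rw [Nat.Partrec.Code.eval_curry, hc]
    refine Nat.rfind_dom.mpr ⟨v, ?_, fun {_} _ => trivial⟩
    rw [hv]
    exact Part.mem_some _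
  have heven : ∀ e k v, Q S t c (Nat.pair e (2 * k)) v = decide (k < (cn S e v).1) := by
    intro e k v
    unfold Q
    rw [Nat.unpair_pair]
    simp only
    rw [decide_eq_true (show 2 * k % 2 = 0 by omega), cond_true,
      show 2 * k / 2 = k by omega]
  have hodd : ∀ e k v, Q S t c (Nat.pair e (2 * k + 1)) v = true ↔ t v = 0 ∧
      (evaln v (curry c e) (2 * k)).isSome = true ∧
      (evaln v (curry c e) (2 * k + 1)).isSome = false := by
    intro e k v
    unfold Q
    rw [Nat.unpair_pair]
    simp only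
    rw [decide_eq_false (show ¬ (2 * k + 1) % 2 = 0 by omega), cond_false,
      Nat.add_sub_cancel, Bool.and_eq_true, Bool.and_eq_true, decide_eq_true_eq,
      Bool.not_eq_true']
  -- if the value at `2 * k` converges, then the value at `2 * k + 1` is a zero of `t` such that
  -- the event happens
  have hnext : ∀ e k, (eval (curry c e) (2 * k)).Dom → ∃ v, v ∈ eval (curry c e) (2 * k + 1) ∧
      t v = 0 ∧ (evaln v (curry c e) (2 * k)).isSome = true ∧
      (evaln v (curry c e) (2 * k + 1)).isSome = false := by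
    intro e k hk
    obtain ⟨w, hw⟩ := Part.dom_iff_mem.mp hk
    obtain ⟨s, hs⟩ := Nat.Partrec.Code.evaln_complete.mp hw
    obtain ⟨z, hz1, hz2⟩ := (Filter.frequently_atTop.mp hz) s
    have hz3 : (evaln z (curry c e) (2 * k)).isSome = true := by
      have := Nat.Partrec.Code.evaln_mono hz1 hs
      rw [Option.mem_def] at this
      rw [this]
      rfl
    have hdom : (eval (curry c e) (2 * k + 1)).Dom := by
      rcases h1 : (evaln z (curry c e) (2 * k + 1)) with _ | u
      · refine hQ' e (2 * k + 1) z ((hodd e k z).mpr ⟨hz2, hz3, ?_⟩)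
        rw [h1]
        rfl
      · exact Part.dom_iff_mem.mpr ⟨u, Nat.Partrec.Code.evaln_sound h1⟩
    obtain ⟨v, hv⟩ := Part.dom_iff_mem.mp hdom
    exact ⟨v, hv, (hodd e k v).mp (hQ e _ v hv)⟩
  have hcd : ∀ e, cd (Encodable.encode (curry c e)) = curry c e := fun e => by
    unfold cd
    rw [Denumerable.ofNat_encode]
  refine ⟨fun e => Encodable.encode (curry c e), ?_, fun e => ?_⟩
  · exact (Primrec.encode.comp (Nat.Partrec.Code.primrec₂_curry.comp (Primrec.const c)
      Primrec.id)).to_comp
  · constructor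
    · intro h1
      by_contra hcon
      push Not at hcon
      have hcon' : ∀ a, ∃ b, S e a b = false := by
        intro a
        obtain ⟨b, hb⟩ := hcon a
        exact ⟨b, by simpa using hb⟩
      rw [Filter.eventually_atTop] at h1
      obtain ⟨x0, hx0⟩ := h1
      obtain ⟨z, _, hz2⟩ := cn_reach hcon' x0
      have h2 : (eval (curry c e) (2 * x0)).Dom := by
        refine hQ' e (2 * x0) (z + 1) ?_
        rw [heven, hz2]
        exact decide_eq_true (Nat.lt_succ_self _)
      obtain ⟨v, _, hv1, hv2, hv3⟩ := hnext e x0 h2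
      have h3 : 2 * x0 < v := by
        obtain ⟨u, hu⟩ := Option.isSome_iff_exists.mp hv2
        exact Nat.Partrec.Code.evaln_bound hu
      refine hx0 v (by omega) ⟨⟨x0, by omega, ?_, ?_⟩, hv1⟩
      · rw [hcd]
        exact hv2
      · rw [hcd]
        exact hv3
    · rintro ⟨a, ha⟩
      have h1 : ∀ k, ∀ᶠ x in Filter.atTop, ¬ ((evaln x (curry c e) (2 * k)).isSome = true ∧
          (evaln x (curry c e) (2 * k + 1)).isSome = false) := by
        intro k
        by_cases hk : (eval (curry c e) (2 * k)).Dom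
        · obtain ⟨v, hv, _⟩ := hnext e k hk
          obtain ⟨s, hs⟩ := Nat.Partrec.Code.evaln_complete.mp hv
          filter_upwards [Filter.eventually_ge_atTop s] with x hx h2
          have h3 := Nat.Partrec.Code.evaln_mono hx hs
          rw [Option.mem_def] at h3
          rw [h3] at h2
          exact absurd h2.2 (by simp)
        · refine Filter.Eventually.of_forall fun x h2 => hk ?_
          obtain ⟨u, hu⟩ := Option.isSome_iff_exists.mp h2.1
          exact Part.dom_iff_mem.mpr ⟨u, Nat.Partrec.Code.evaln_sound hu⟩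
      have h2 : ∀ᶠ x in Filter.atTop, ∀ k < a,
          ¬ ((evaln x (curry c e) (2 * k)).isSome = true ∧
          (evaln x (curry c e) (2 * k + 1)).isSome = false) := by
        have := (Filter.eventually_all_finset (Finset.range a) (l := Filter.atTop)
          (p := fun k x => ¬ ((evaln x (curry c e) (2 * k)).isSome = true ∧
            (evaln x (curry c e) (2 * k + 1)).isSome = false))).mpr fun k _ => h1 k
        filter_upwards [this] with x hx k hk
        exact hx k (Finset.mem_range.mpr hk)
      filter_upwards [h2] with x hx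
      rintro ⟨⟨k, _, h3, h4⟩, _⟩
      rw [hcd] at h3 h4
      refine hx k ?_ ⟨h3, h4⟩
      obtain ⟨u, hu⟩ := Option.isSome_iff_exists.mp h3
      have h5 := Nat.Partrec.Code.evaln_sound hu
      have h6 := hQ e _ _ h5
      rw [heven, decide_eq_true_eq] at h6
      exact lt_of_lt_of_le h6 (cn_le ha _)

/-! ### Completeness -/

/-- The search for a witness, followed by the output of `g e x`. -/
theorem partrec_search {R : ℕ → ℕ → ℕ → Bool} {g : ℕ → ℕ → ℕ}
    (hR : Computable (fun p : ℕ × ℕ × ℕ => R p.1 p.2.1 p.2.2)) (hg : Computable₂ g) :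
    Partrec₂ fun e x => ((Nat.rfind fun s => Part.some (R e x s)).map fun _ => g e x : Part ℕ) := by
  have h1 : Computable fun p : (ℕ × ℕ) × ℕ => (p.1.1, p.1.2, p.2) :=
    (Computable.fst.comp Computable.fst).pair
      ((Computable.snd.comp Computable.fst).pair Computable.snd)
  have h2' := hR.comp h1
  have h2 : Computable₂ fun (p : ℕ × ℕ) (s : ℕ) => R p.1 p.2 s := h2'
  have h3 : Partrec fun p : ℕ × ℕ => Nat.rfind fun s => Part.some (R p.1 p.2 s) :=
    Partrec.rfind h2.partrec₂
  have h4 : Computable₂ fun (p : ℕ × ℕ) (_ : ℕ) => g p.1 p.2 := by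
    have h5 : Computable fun q : (ℕ × ℕ) × ℕ => g q.1.1 q.1.2 :=
      hg.comp (Computable.fst.comp Computable.fst) (Computable.snd.comp Computable.fst)
    exact h5
  exact h3.map h4

theorem mem_search {R : ℕ → ℕ → ℕ → Bool} {g : ℕ → ℕ → ℕ} {e x v : ℕ} :
    v ∈ ((Nat.rfind fun s => Part.some (R e x s)).map fun _ => g e x : Part ℕ) ↔
      (∃ s, R e x s = true) ∧ g e x = v := by
  rw [Part.mem_map_iff]
  constructor
  · rintro ⟨s, hs, rfl⟩
    have h1 := (Nat.mem_rfind.mp hs).1
    rw [Part.mem_some_iff] at h1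
    exact ⟨⟨s, h1.symm⟩, rfl⟩
  · rintro ⟨⟨s, hs⟩, rfl⟩
    have h1 : (Nat.rfind fun s => Part.some (R e x s)).Dom :=
      Nat.rfind_dom.mpr ⟨s, by rw [hs]; exact Part.mem_some _, fun {_} _ => trivial⟩
    obtain ⟨u, hu⟩ := Part.dom_iff_mem.mp h1
    exact ⟨u, hu, rfl⟩

/-- The diagonal function. -/
def dg (S : ℕ → ℕ → ℕ → Bool) (t : ℕ → ℕ) (e x : ℕ) : ℕ :=
  bif decide ((cn S e (x + 1)).1 = (cn S e x).1) then 0
  else ((ev (cn S e x).1.unpair.1 x (t x)).map Nat.succ).getD 0

theorem dg_comp {S : ℕ → ℕ → ℕ → Bool} {t : ℕ → ℕ}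
    (hS : Computable (fun p : ℕ × ℕ × ℕ => S p.1 p.2.1 p.2.2)) (ht : Computable t) :
    Computable₂ (dg S t) := by
  have e0 : Computable fun p : ℕ × ℕ => p.1 := Computable.fst
  have e1 : Computable fun p : ℕ × ℕ => p.2 := Computable.snd
  have e2 : Computable fun p : ℕ × ℕ => p.2 + 1 := Computable.succ.comp e1
  have e3 : Computable fun p : ℕ × ℕ => (cn S p.1 (p.2 + 1)).1 :=
    Computable.fst.comp ((cn_comp hS).comp e0 e2)
  have e4 : Computable fun p : ℕ × ℕ => (cn S p.1 p.2).1 :=
    Computable.fst.comp ((cn_comp hS).comp e0 e1)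
  have e5 : Computable fun p : ℕ × ℕ => decide ((cn S p.1 (p.2 + 1)).1 = (cn S p.1 p.2).1) :=
    Primrec.eq.decide.to_comp.comp e3 e4
  have e6 : Computable fun p : ℕ × ℕ => (cn S p.1 p.2).1.unpair.1 :=
    Computable.fst.comp (Computable.unpair.comp e4)
  have e7 : Computable fun p : ℕ × ℕ => t p.2 := ht.comp e1
  have e8 : Computable fun p : ℕ × ℕ => ev (cn S p.1 p.2).1.unpair.1 p.2 (t p.2) :=
    step_ev.comp' e6 e1 e7
  have e9 : Computable fun p : ℕ × ℕ =>
      (ev (cn S p.1 p.2).1.unpair.1 p.2 (t p.2)).map Nat.succ :=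
    Computable.option_map e8 (Computable.succ.comp Computable.snd).to₂
  have e10 : Computable fun p : ℕ × ℕ =>
      ((ev (cn S p.1 p.2).1.unpair.1 p.2 (t p.2)).map Nat.succ).getD 0 :=
    Computable.option_getD e9 (Computable.const 0)
  exact Computable.cond e5 (Computable.const 0) e10

/-- The class contains all functions with finite support. -/
theorem fs_mem {t f : ℕ → ℕ} (ht : ∀ᶠ x in Filter.atTop, t x ≠ 0) {m : ℕ}
    (hf : ∀ x, m ≤ x → f x = 0) : f ∈ Cls (phi ev) (cost ev) t := by
  have h1 : ∀ x, fs (Encodable.encode ((List.range m).map f)) x = f x := by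
    intro x
    unfold fs
    rw [Denumerable.ofNat_encode]
    rcases Nat.lt_or_ge x m with hx | hx
    · rw [List.getD_eq_getElem?_getD, List.getElem?_map, List.getElem?_range hx]
      rfl
    · rw [List.getD_eq_default, hf x hx]
      rwa [List.length_map, List.length_range]
  rw [step_ev.mem_cls]
  refine ⟨3 * Encodable.encode ((List.range m).map f) + 1, fun x => ⟨1, ?_⟩, ?_⟩
  · rw [ev_fs, if_neg one_ne_zero, h1]
  · filter_upwards [ht] with x hx
    rw [ev_fs, if_neg hx]
    rfl

/-- The index set of every class is hard. -/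
theorem hard {t : ℕ → ℕ} (ht : Computable t) {P : ℕ → Prop} (hP : D2 P) :
    OneOneReducible P (Ix (phi ev) (cost ev) t) := by
  obtain ⟨R, S, hR, hS, hP⟩ := hP
  by_cases hz : ∃ᶠ x in Filter.atTop, t x = 0
  · obtain ⟨g, hg, hg'⟩ := reduct hS ht hz
    have hg2 : Computable₂ fun (e _x : ℕ) => g e := hg.comp Computable.fst
    obtain ⟨h, h1, h2, h3⟩ := exists_index (partrec_search hR hg2)
    have hmem : ∀ e x v, v ∈ phi ev (h e) x ↔ (∃ s, R e x s = true) ∧ g e = v := by
      intro e x v
      rw [h3]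
      exact mem_search (g := fun e _ => g e)
    refine ⟨h, h1, h2, fun e => ?_⟩
    rw [hP, ← hg']
    unfold Ix
    constructor
    · rintro ⟨h4, h5⟩
      refine ⟨fun _ => g e, ?_, fun x => (hmem e x _).mpr ⟨h4 x, rfl⟩⟩
      rw [step_ev.mem_cls]
      refine ⟨3 * g e, fun x => ⟨1, ?_⟩, ?_⟩
      · rw [ev_const, if_neg (fun h6 => one_ne_zero h6.2)]
      · filter_upwards [h5] with x hx
        rw [ev_const, if_neg hx]
        rfl
    · rintro ⟨f, hf, hf'⟩
      refine ⟨fun x => ((hmem e x _).mp (hf' x)).1, ?_⟩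
      rw [step_ev.mem_cls] at hf
      obtain ⟨i, hi1, hi2⟩ := hf
      obtain ⟨x, hx1, hx2⟩ := (hz.and_eventually hi2).exists
      rw [hx1] at hx2
      obtain ⟨v, hv⟩ := Option.isSome_iff_exists.mp hx2
      obtain ⟨s, hs⟩ := hi1 x
      have h4 := step_ev.mono (Nat.zero_le s) hv
      rw [hs] at h4
      have h5 : v = g e := by
        rw [← Option.some.inj h4]
        exact ((hmem e x _).mp (hf' x)).2.symm
      obtain ⟨h6, _⟩ := ev_zero hv
      rw [h5] at h6
      filter_upwards [hi2] with y hy h7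
      rw [h6, ev_const, if_pos h7] at hy
      exact absurd hy (by simp)
  · rw [Filter.not_frequently] at hz
    have hz' : ∀ᶠ x in Filter.atTop, t x ≠ 0 := hz
    obtain ⟨h, h1, h2, h3⟩ := exists_index (partrec_search hR (dg_comp hS ht))
    have hmem : ∀ e x v, v ∈ phi ev (h e) x ↔ (∃ s, R e x s = true) ∧ dg S t e x = v := by
      intro e x v
      rw [h3]
      exact mem_search
    refine ⟨h, h1, h2, fun e => ?_⟩
    rw [hP]
    unfold Ix
    constructor
    · rintro ⟨h4, a, ha⟩
      refine ⟨fun x => dg S t e x, ?_, fun x => (hmem e x _).mpr ⟨h4 x, rfl⟩⟩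
      -- the counter is eventually constant
      have h5 : ∃ m, ∀ x, m ≤ x → (cn S e (x + 1)).1 = (cn S e x).1 := by
        by_contra hcon
        push Not at hcon
        have h6 : ∀ k, ∃ z, k ≤ (cn S e z).1 := by
          intro k
          induction k with
          | zero => exact ⟨0, Nat.zero_le _⟩
          | succ k ih =>
            obtain ⟨z, hz⟩ := ih
            obtain ⟨x, hx, hx'⟩ := hcon z
            refine ⟨x + 1, ?_⟩
            have h7 : (cn S e z).1 ≤ (cn S e x).1 := cn_mono' S e hx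
            have h8 := cn_mono S e x
            omega
        obtain ⟨z, hz⟩ := h6 (a + 1)
        have := cn_le ha z
        omega
      obtain ⟨m, hm⟩ := h5
      refine fs_mem hz' (m := m) fun x hx => ?_
      unfold dg
      rw [hm x hx]
      simp
    · rintro ⟨f, hf, hf'⟩
      refine ⟨fun x => ((hmem e x _).mp (hf' x)).1, ?_⟩
      rw [step_ev.mem_cls] at hf
      obtain ⟨i, hi1, hi2⟩ := hf
      by_contra hcon
      push Not at hcon
      have hcon' : ∀ a, ∃ b, S e a b = false := by
        intro a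
        obtain ⟨b, hb⟩ := hcon a
        exact ⟨b, by simpa using hb⟩
      rw [Filter.eventually_atTop] at hi2
      obtain ⟨x0, hx0⟩ := hi2
      obtain ⟨z, hz1, hz2⟩ := cn_reach hcon' (Nat.pair i x0)
      have h4 : x0 ≤ z := by
        have h5 := cn_le_self S e z
        rw [hz1] at h5
        exact (Nat.right_le_pair i x0).trans h5
      obtain ⟨v, hv⟩ := Option.isSome_iff_exists.mp (hx0 z h4)
      obtain ⟨s, hs⟩ := hi1 z
      have h6 := step_ev.mono (le_max_left s (t z)) hs
      have h7 := step_ev.mono (le_max_right s (t z)) hv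
      rw [h6] at h7
      have h8 := ((hmem e z _).mp (hf' z)).2
      unfold dg at h8
      rw [hz1, hz2, decide_eq_false (by omega), cond_false, Nat.unpair_pair] at h8
      simp only at h8
      rw [hv] at h8
      simp only [Option.map_some, Option.getD_some] at h8
      have h9 := Option.some.inj h7
      omega

/-- The measure is conform. -/
theorem conform : Conform (phi ev) (cost ev) :=
  fun _ _ h1 h2 _ _ => ⟨hard h2 (step_ev.ix_D2 h1), hard h1 (step_ev.ix_D2 h2)⟩

/-- The class of the zero function is not recursively enumerable. -/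
theorem not_re : ¬ IsRE (phi ev) (Cls (phi ev) (cost ev) fun _ => 0) := by
  have hz : ∃ᶠ x in (Filter.atTop : Filter ℕ), (fun _ : ℕ => 0) x = 0 :=
    Filter.Frequently.of_forall fun _ => rfl
  have hS : Computable fun p : ℕ × ℕ × ℕ => !(evaln p.2.2 (cd p.1) 0).isSome := by
    have e1 : Primrec fun p : ℕ × ℕ × ℕ => p.1 := Primrec.fst
    have e2 : Primrec fun p : ℕ × ℕ × ℕ => p.2.2 := Primrec.snd.comp Primrec.snd
    exact (Primrec.not.comp (Primrec.option_isSome.comp
      (prim_evaln e2 e1 (Primrec.const 0)))).to_comp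
  obtain ⟨h, hh, hh'⟩ := reduct (S := fun e _ b => !(evaln b (cd e) 0).isSome)
    (t := fun _ => 0) hS (Computable.const 0) hz
  have hB : ∀ e, (∀ᶠ x in Filter.atTop, ¬ E (h e) x) ↔ ¬ (eval (cd e) 0).Dom := by
    intro e
    have h1 := hh' e
    simp only [and_true] at h1
    rw [h1, Part.dom_iff_mem]
    simp only [Bool.not_eq_true']
    constructor
    · rintro ⟨_, h2⟩ ⟨v, hv⟩
      obtain ⟨s, hs⟩ := Nat.Partrec.Code.evaln_complete.mp hv
      have h3 := h2 s
      rw [Option.mem_def] at hs
      rw [hs] at h3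
      exact absurd h3 (by simp)
    · intro h2
      refine ⟨0, fun b => ?_⟩
      rcases h3 : evaln b (cd e) 0 with _ | v
      · rfl
      · exact absurd ⟨v, Nat.Partrec.Code.evaln_sound h3⟩ h2
  -- members of the class
  have hC : ∀ f : ℕ → ℕ, f ∈ Cls (phi ev) (cost ev) (fun _ => 0) ↔
      ∃ n, (∀ x, f x = n) ∧ ∀ᶠ x in Filter.atTop, ¬ E n x := by
    intro f
    rw [step_ev.mem_cls]
    constructor
    · rintro ⟨i, h1, h2⟩
      obtain ⟨x, hx⟩ := h2.exists
      obtain ⟨v, hv⟩ := Option.isSome_iff_exists.mp hx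
      obtain ⟨h3, _⟩ := ev_zero hv
      refine ⟨v, fun y => ?_, ?_⟩
      · obtain ⟨s, hs⟩ := h1 y
        rw [h3, ev_const] at hs
        split_ifs at hs
        exact (Option.some.inj hs).symm
      · filter_upwards [h2] with y hy h4
        rw [h3, ev_const, if_pos ⟨h4, rfl⟩] at hy
        exact absurd hy (by simp)
    · rintro ⟨n, h1, h2⟩
      refine ⟨3 * n, fun x => ⟨1, ?_⟩, ?_⟩
      · rw [ev_const, if_neg (fun h6 => one_ne_zero h6.2), h1]
      · filter_upwards [h2] with x hx
        rw [ev_const, if_neg (fun h6 => hx h6.1)]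
        rfl
  rintro (h1 | ⟨g, hg, hg1, hg2⟩)
  · -- the class is nonempty
    have h2 : ¬ (eval (cd (Encodable.encode (Nat.Partrec.Code.rfind' Code.succ))) 0).Dom := by
      unfold cd
      rw [Denumerable.ofNat_encode]
      intro hd
      obtain ⟨v, hv⟩ := Part.dom_iff_mem.mp hd
      simp [eval, Nat.rfind] at hv
    rw [← hB, ] at h2
    have h3 := (hC fun _ => h (Encodable.encode (Nat.Partrec.Code.rfind' Code.succ))).mpr
      ⟨_, fun _ => rfl, h2⟩
    rw [h1] at h3
    exact h3
  · apply ComputablePred.halting_problem_not_re 0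
    have e1 : Computable fun q : Code × ℕ => h (Encodable.encode q.1) :=
      hh.comp (Computable.encode.comp Computable.fst)
    have e2 : Computable fun q : Code × ℕ => q.2.unpair := Computable.unpair.comp Computable.snd
    have e3 : Computable fun q : Code × ℕ => g q.2.unpair.1 := hg.comp (Computable.fst.comp e2)
    have e4 : Computable fun q : Code × ℕ => q.2.unpair.2 := Computable.snd.comp e2
    have e5 : Computable fun q : Code × ℕ => ev (g q.2.unpair.1) 0 q.2.unpair.2 :=
      step_ev.comp' e3 (Computable.const 0) e4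
    have e6 : Computable fun q : Code × ℕ => decide (ev (g q.2.unpair.1) 0 q.2.unpair.2 =
        some (h (Encodable.encode q.1))) :=
      Primrec.eq.decide.to_comp.comp e5 (Computable.option_some.comp e1)
    have e7 : Computable₂ fun (c : Code) (k : ℕ) => decide (ev (g k.unpair.1) 0 k.unpair.2 =
        some (h (Encodable.encode c))) := e6
    have e8 := (Partrec.rfind e7.partrec₂).dom_re
    refine e8.of_eq fun c => ?_
    have hc : cd (Encodable.encode c) = c := by
      unfold cd
      rw [Denumerable.ofNat_encode]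
    have h3 := hB (Encodable.encode c)
    rw [hc] at h3
    rw [← h3]
    constructor
    · intro h4
      obtain ⟨k, hk⟩ := Part.dom_iff_mem.mp h4
      have h5 := (Nat.mem_rfind.mp hk).1
      have h6 : true = decide (ev (g k.unpair.1) 0 k.unpair.2 = some (h (Encodable.encode c))) :=
        (Part.mem_some_iff.mp h5)
      have h7 := of_decide_eq_true h6.symm
      obtain ⟨f, hf1, hf2⟩ := hg1 k.unpair.1
      obtain ⟨n, hn1, hn2⟩ := (hC f).mp hf1
      obtain ⟨s, hs⟩ := step_ev.mem_phi.mp (hf2 0)
      have h8 := step_ev.mono (le_max_left s k.unpair.2) hs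
      have h9 := step_ev.mono (le_max_right s k.unpair.2) h7
      rw [h8, hn1] at h9
      rw [← Option.some.inj h9]
      exact hn2
    · intro h4
      have h5 := (hC fun _ => h (Encodable.encode c)).mpr ⟨_, fun _ => rfl, h4⟩
      obtain ⟨m, hm⟩ := hg2 _ h5
      obtain ⟨s, hs⟩ := step_ev.mem_phi.mp (hm 0)
      refine Nat.rfind_dom.mpr ⟨Nat.pair m s, ?_, fun {_} _ => trivial⟩
      have h6 : decide (ev (g (Nat.pair m s).unpair.1) 0 (Nat.pair m s).unpair.2 =
          some (h (Encodable.encode c))) = true := by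
        rw [Nat.unpair_pair]
        exact decide_eq_true hs
      exact Part.mem_some_iff.mpr h6.symm

end Pool.Agent.Q216.CB
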